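import Pool.Agent.Helper87.LT.Q2

open MeasureTheory Set Filter Metric

namespace Pool.Agent.Helper87.LT

open Helper49.LT Helper97.CB

theorem contDiffAt_cc {r : ℝ} {sp sm : (ℂ × ℂ) × (ℝ × ℝ) → ℝ} (hC : Chd r sp sm)
    (p : (ℂ × ℂ) × (ℝ × ℝ)) (hp : p ∈ ball (0 : (ℂ × ℂ) × (ℝ × ℝ)) r) :
    ContDiffAt ℝ 6 (cc sp) p := by
  have h1 : ContDiffAt ℝ 6 sp p := (hC.cp p hp).contDiffAt (isOpen_ball.mem_nhds hp)
  have h2 : ContDiffAt ℝ 6 (fun q : (ℂ × ℂ) × (ℝ × ℝ) => zh q.1 (sp q)) p := by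
    have h3 : ContDiff ℝ 6 (fun p : (ℂ × ℂ) × ℝ => zh p.1 p.2) := contDiff_zh.of_le le_top
    exact h3.contDiffAt.comp p (contDiffAt_fst.prodMk h1)
  have h4 : ContDiffAt ℝ 6 (fun q : (ℂ × ℂ) × (ℝ × ℝ) => ((1 + q.2.1 : ℝ) : ℂ)) p := by
    have h5 : ContDiff ℝ 6 (fun q : (ℂ × ℂ) × (ℝ × ℝ) => (1 + q.2.1 : ℝ)) := by fun_prop
    exact (Complex.ofRealCLM.contDiff.comp h5).contDiffAt
  exact Complex.reCLM.contDiff.contDiffAt.comp p (h4.mul h2)

theorem norm_sm (a : ℝ) (ha : 0 ≤ a) : ‖((a : ℂ), (0 : ℂ))‖ = a := by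
  rw [Prod.norm_def]
  simp [abs_of_nonneg ha, ha]

theorem point (r : ℝ) (sp sm : (ℂ × ℂ) × (ℝ × ℝ) → ℝ) (hC : Chd r sp sm) :
    ∃ C r₁ : ℝ, 0 < C ∧ 0 < r₁ ∧ r₁ ≤ 1 / 10000 ∧ r₁ < r ∧ ∀ a : ℝ, 0 ≤ a → a ≤ r₁ →
      ∀ α k s : ℝ, k = a * Real.cos (3 * α) → s = a * Real.sin (3 * α) →
      |cc sp (rot (α + Real.arctan (eI k s / eR k s)) ((a : ℂ), (0 : ℂ)), 0)
        - rR k s / Real.sqrt (eN k s)| ≤ C * a ^ 5 := by
  obtain ⟨C₁, hC₁, hqq⟩ := qq_bound
  have h0 : (0 : (ℂ × ℂ) × (ℝ × ℝ)) ∈ ball (0 : (ℂ × ℂ) × (ℝ × ℝ)) r := mem_ball_self hC.pos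
  obtain ⟨K, t, ht, hL⟩ := ((contDiffAt_cc hC 0 h0).of_le (by norm_num : (1 : WithTop ℕ∞) ≤ 6)).exists_lipschitzOnWith
  obtain ⟨ρ, hρ, hρt⟩ := Metric.mem_nhds_iff.mp ht
  have hac : ContinuousAt Real.arccos (1 / 2) := Real.continuous_arccos.continuousAt
  obtain ⟨ε, hε, hεa⟩ := Metric.continuousAt_iff.mp hac (1 / 20) (by norm_num)
  have hac0 : Real.arccos (1 / 2) = Real.pi / 3 := by
    rw [← Real.cos_pi_div_three, Real.arccos_cos (by positivity) (by linarith [Real.pi_pos])]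
  set r₁ : ℝ := min (1 / 10000) (min (r / 2) (min (ρ / 2) (min (ε / 100) (1 / (8 * C₁ + 8)))))
    with hr₁
  have hr₁0 : 0 < r₁ := by
    rw [hr₁]
    have := hC.pos
    refine lt_min (by norm_num) (lt_min (by positivity) (lt_min (by positivity)
      (lt_min (by positivity) (by positivity))))
  have b1 : r₁ ≤ 1 / 10000 := min_le_left _ _
  have b2 : r₁ ≤ r / 2 := le_trans (min_le_right _ _) (min_le_left _ _)
  have b3 : r₁ ≤ ρ / 2 := le_trans (min_le_right _ _) (le_trans (min_le_right _ _) (min_le_left _ _))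
  have b4 : r₁ ≤ ε / 100 := le_trans (min_le_right _ _) (le_trans (min_le_right _ _)
    (le_trans (min_le_right _ _) (min_le_left _ _)))
  have b5 : r₁ ≤ 1 / (8 * C₁ + 8) := le_trans (min_le_right _ _) (le_trans (min_le_right _ _)
    (le_trans (min_le_right _ _) (min_le_right _ _)))
  have hr0 := hC.pos
  refine ⟨(K + 4) * (2 * C₁), r₁, by positivity, hr₁0, b1, by linarith, ?_⟩
  intro a ha0 ha α k s hk' hs'
  have hk : |k| ≤ a := by
    rw [hk', abs_mul, abs_of_nonneg ha0]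
    exact mul_le_of_le_one_right ha0 (Real.abs_cos_le_one _)
  have hs : |s| ≤ a := by
    rw [hs', abs_mul, abs_of_nonneg ha0]
    exact mul_le_of_le_one_right ha0 (Real.abs_sin_le_one _)
  have ha1 : a ≤ 1 / 10000 := le_trans ha b1
  obtain ⟨g1, g2, g3, g4, g5, g6, g7⟩ := bds a k s ha1 hk hs
  have hp := pq_bd a k s (by linarith) hk hs
  have hP := hqq a k s (by linarith) hk hs
  have ha5 : a ^ 5 ≤ a := by
    calc a ^ 5 = a ^ 4 * a := by ring
      _ ≤ 1 * a := mul_le_mul_of_nonneg_right (pow_le_one₀ ha0 (by linarith)) ha0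
      _ = a := one_mul a
  have hC1a : C₁ * a ≤ 1 / 8 := by
    have h1 : a ≤ 1 / (8 * C₁ + 8) := le_trans ha b5
    rw [le_div_iff₀ (by positivity)] at h1
    nlinarith
  have hC1a5 : C₁ * a ^ 5 ≤ 1 / 8 := le_trans (mul_le_mul_of_nonneg_left ha5 hC₁.le) hC1a
  have g1' := abs_le.mp g1
  have g2' := abs_le.mp g2
  have g5' := abs_le.mp g5
  have hp' := abs_le.mp hp
  have hP' := abs_le.mp hP
  set q : ℝ := 1 / 2 + pq k s with hq
  set P : ℝ := (1 - q ^ 2) * eN k s with hPdef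
  have hq1 : -1 ≤ q := by linarith
  have hq2 : q ≤ 1 := by linarith
  have hq3 : 0 < 1 - q ^ 2 := by nlinarith
  have heN : 0 < eN k s := by linarith
  have hPpos : 1 / 2 ≤ P := by linarith
  have hsP : 0 < Real.sqrt P := Real.sqrt_pos.mpr (by linarith)
  have hs3 : 0 < Real.sqrt 3 := Real.sqrt_pos.mpr (by norm_num)
  set N : ℝ := Real.sqrt (eN k s) with hN
  have hN0 : 0 < N := Real.sqrt_pos.mpr heN
  have hN1 : 1 / 2 ≤ N := by
    rw [hN]
    apply Real.le_sqrt_of_sq_le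
    norm_num
    linarith
  set ζ : ℝ := Real.sqrt 3 / 2 / Real.sqrt P - 1 with hζ
  have hζb : |ζ| ≤ 2 * (C₁ * a ^ 5) := by
    have e : ζ * (Real.sqrt P * (Real.sqrt 3 / 2 + Real.sqrt P)) = 3 / 4 - P := by
      have e1 : Real.sqrt 3 * Real.sqrt 3 = 3 := Real.mul_self_sqrt (by norm_num)
      have e2 : Real.sqrt P * Real.sqrt P = P := Real.mul_self_sqrt (by linarith)
      have e3 : ζ * Real.sqrt P = Real.sqrt 3 / 2 - Real.sqrt P := by
        rw [hζ]; field_simp
      rw [← mul_assoc, e3]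
      linear_combination (1 / 4) * e1 - e2
    have e4 : 1 / 2 ≤ Real.sqrt P * (Real.sqrt 3 / 2 + Real.sqrt P) := by
      have e2 : Real.sqrt P * Real.sqrt P = P := Real.mul_self_sqrt (by linarith)
      nlinarith [mul_pos hsP hs3]
    have e5 : |ζ| * (Real.sqrt P * (Real.sqrt 3 / 2 + Real.sqrt P)) = |3 / 4 - P| := by
      rw [← e, abs_mul, abs_of_pos (lt_of_lt_of_le (by norm_num) e4)]
    have e6 : |ζ| * (1 / 2) ≤ |3 / 4 - P| := by
      rw [← e5]
      exact mul_le_mul_of_nonneg_left e4 (abs_nonneg _)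
    have e7 := abs_sub_comm (3 / 4) P
    linarith
  have hζs : |ζ| ≤ 2 * C₁ * a ^ 5 := by linarith
  set β : ℝ := Real.arccos q with hβ
  have hcosβ : Real.cos β = 1 / 2 + pq k s := by
    rw [hβ, Real.cos_arccos hq1 hq2]
  have hsinβ : Real.sin β = Real.sqrt (1 - q ^ 2) := Real.sin_arccos q
  have hββ : |β - Real.pi / 3| ≤ 1 / 20 := by
    have h1 : dist q (1 / 2) < ε := by
      rw [Real.dist_eq]
      have : q - 1 / 2 = pq k s := by rw [hq]; ring
      rw [this]
      have : a ≤ ε / 100 := le_trans ha b4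
      linarith
    have h2 := hεa h1
    rw [Real.dist_eq, hac0] at h2
    exact h2.le
  set x : ℝ := eI k s / eR k s with hx
  have heR : 0 < eR k s := by linarith
  set δ : ℝ := Real.arctan x with hδ
  have hxb : |x| ≤ 1 / 20 := by
    rw [hx, abs_div, abs_of_pos heR, div_le_iff₀ heR]
    linarith
  have hδb : |δ| ≤ 1 / 20 := by
    have hx' := abs_le.mp hxb
    have hle : ∀ y : ℝ, 0 ≤ y → Real.arctan y ≤ y := fun y hy => by
      by_contra hcon
      push Not at hcon
      have h1 := Real.lt_tan (lt_of_le_of_lt hy hcon) (Real.arctan_lt_pi_div_two y)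
      rw [Real.tan_arctan] at h1
      linarith
    rw [abs_le]
    rcases le_total 0 x with h | h
    · have h1 := hle x h
      have h2 : 0 ≤ δ := Real.arctan_nonneg.mpr h
      constructor <;> linarith
    · have h1 := hle (-x) (by linarith)
      rw [Real.arctan_neg] at h1
      have h2 : δ ≤ 0 := by
        have h3 := Real.arctan_strictMono.monotone h
        rwa [Real.arctan_zero] at h3
      constructor <;> linarith
  have hsq : Real.sqrt (1 + x ^ 2) = N / eR k s := by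
    have h1 : 1 + x ^ 2 = eN k s / (eR k s) ^ 2 := by
      rw [hx]; unfold eN; field_simp
    rw [h1, Real.sqrt_div heN.le, Real.sqrt_sq heR.le]
  have hE1 : eR k s = N * Real.cos δ := by
    rw [hδ, Real.cos_arctan, hsq]; field_simp
  have hE2 : eI k s = N * Real.sin δ := by
    rw [hδ, Real.sin_arctan, hsq, hx]; field_simp
  have hz : (1 + ζ) * (2 * Real.sin β * N) = Real.sqrt 3 := by
    have h1 : Real.sqrt P = Real.sqrt (1 - q ^ 2) * N := by
      rw [hPdef, Real.sqrt_mul hq3.le]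
    have h2 : 1 + ζ = Real.sqrt 3 / 2 / Real.sqrt P := by rw [hζ]; ring
    rw [h2, hsinβ]
    have h3 : 2 * Real.sqrt (1 - q ^ 2) * N = 2 * Real.sqrt P := by rw [h1]; ring
    rw [h3]
    field_simp
  set v' : ℂ × ℂ := rot α ((a : ℂ), (0 : ℂ)) with hv'
  have hv2 : v'.2 = 0 := by rw [hv']; simp [rot]
  have hv1 : v'.1 = (k : ℂ) - (s : ℂ) * Complex.I := by
    rw [hv']
    show ee (-3 * α) * (a : ℂ) = _
    have : -3 * α = -(3 * α) := by ring
    rw [this, ee_eq, Real.cos_neg, Real.sin_neg, hk', hs']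
    push_cast
    ring
  have hnv : ‖rot δ v'‖ = a := by
    rw [norm_rot, hv', norm_rot, norm_sm a ha0]
  have hζr : |ζ| ≤ 1 / 4 * 1 := by linarith
  have hζa : |ζ| ≤ 2 * (C₁ * a) * 1 := by
    have := mul_le_mul_of_nonneg_left ha5 hC₁.le
    linarith
  -- the crucial smallness of ζ
  have hζsm : |ζ| ≤ a := by
    have h1 : a ^ 5 = a ^ 4 * a := by ring
    have h2 : a ^ 4 ≤ a := by
      calc a ^ 4 = a ^ 3 * a := by ring
        _ ≤ 1 * a := mul_le_mul_of_nonneg_right (pow_le_one₀ ha0 (by linarith)) ha0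
        _ = a := one_mul a
    have h3 : C₁ * a ^ 5 ≤ (C₁ * a) * a := by
      rw [h1]
      have := mul_le_mul_of_nonneg_right h2 ha0
      have := mul_le_mul_of_nonneg_left this hC₁.le
      linarith
    have h4 : (C₁ * a) * a ≤ 1 / 8 * a := mul_le_mul_of_nonneg_right hC1a ha0
    linarith
  have hnp : ‖((rot δ v', (ζ, ζ)) : (ℂ × ℂ) × (ℝ × ℝ))‖ ≤ a := by
    rw [Prod.norm_def]
    apply max_le
    · exact hnv.le
    · rw [Prod.norm_def]
      simp only [Real.norm_eq_abs, max_self]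
      exact hζsm
  have hnp0 : ‖((rot δ v', (0, 0)) : (ℂ × ℂ) × (ℝ × ℝ))‖ ≤ a := by
    rw [Prod.norm_def]
    apply max_le
    · exact hnv.le
    · rw [Prod.norm_def]
      simp [ha0]
  have hball : (rot δ v', (ζ, ζ)) ∈ ball (0 : (ℂ × ℂ) × (ℝ × ℝ)) r := by
    rw [mem_ball_zero_iff]; linarith
  have hcl := chord_closed hC k s ζ β δ N v' hv2 hv1 hcosβ hN0 hE1 hE2 hz hball hββ hδb
  have hrot : rot (α + δ) ((a : ℂ), (0 : ℂ)) = rot δ v' := by
    rw [hv', add_comm, rot_add]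
  have hLip := hL.dist_le_mul (rot δ v', (ζ, ζ)) (hρt (by rw [mem_ball_zero_iff]; linarith))
    (rot δ v', (0, 0)) (hρt (by rw [mem_ball_zero_iff]; linarith))
  have hd : dist ((rot δ v', (ζ, ζ)) : (ℂ × ℂ) × (ℝ × ℝ)) (rot δ v', (0, 0)) = |ζ| := by
    rw [dist_eq_norm, Prod.norm_def]
    simp [Prod.norm_def]
  rw [hd, Real.dist_eq, hcl] at hLip
  have hzero : (0 : ℝ × ℝ) = (0, 0) := rfl
  rw [hrot, hzero]
  have e1 : cc sp (rot δ v', (0, 0)) - rR k s / N =
      -((1 + ζ) * (rR k s / N) - cc sp (rot δ v', (0, 0))) + ζ * (rR k s / N) := by ring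
  rw [e1]
  refine le_trans (abs_add_le _ _) ?_
  rw [abs_neg, abs_mul ζ, abs_div, abs_of_pos hN0]
  have e2 : |rR k s| / N ≤ 4 := by
    rw [div_le_iff₀ hN0]; linarith
  have e3 : |ζ| * (|rR k s| / N) ≤ |ζ| * 4 := mul_le_mul_of_nonneg_left e2 (abs_nonneg _)
  have e4 : (K : ℝ) * |ζ| + |ζ| * 4 ≤ (K + 4) * (2 * C₁) * a ^ 5 := by
    have : (K : ℝ) * |ζ| + |ζ| * 4 = (K + 4) * |ζ| := by ring
    rw [this, mul_assoc]
    exact mul_le_mul_of_nonneg_left hζs (by positivity)
  linarith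

theorem hasDeriv_kk (a α : ℝ) : HasDerivAt (fun t : ℝ => a * Real.cos (3 * t))
    (-3 * (a * Real.sin (3 * α))) α := by
  have h1 : HasDerivAt (fun t : ℝ => 3 * t) 3 α := by
    simpa using (hasDerivAt_id α).const_mul 3
  exact (h1.cos.const_mul a).congr_deriv (by ring)

theorem hasDeriv_ss (a α : ℝ) : HasDerivAt (fun t : ℝ => a * Real.sin (3 * t))
    (3 * (a * Real.cos (3 * α))) α := by
  have h1 : HasDerivAt (fun t : ℝ => 3 * t) 3 α := by
    simpa using (hasDerivAt_id α).const_mul 3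
  exact (h1.sin.const_mul a).congr_deriv (by ring)

theorem hasDeriv_pq {f g : ℝ → ℝ} {α : ℝ} (hf : HasDerivAt f (-3 * g α) α)
    (hg : HasDerivAt g (3 * f α) α) :
    HasDerivAt (fun t => pq (f t) (g t)) (pqd (f α) (g α)) α := by
  have h := ((((((hf.const_mul (-3 / 2)).add ((hg.pow 2).const_mul (3 / 4))).sub
    ((hf.const_mul (3 / 2)).mul (hg.pow 2))).add ((hf.pow 3).const_mul (21 / 2))).add
    ((hg.pow 4).const_mul (15 / 16))).sub (((hf.pow 2).const_mul (39 / 2)).mul (hg.pow 2))).add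
    ((hf.pow 4).const_mul 3)
  unfold pq pqd
  exact h.congr_deriv (by
    simp only [Pi.pow_apply]
    ring)

theorem hasDeriv_eR {f g : ℝ → ℝ} {α : ℝ} (hf : HasDerivAt f (-3 * g α) α)
    (hg : HasDerivAt g (3 * f α) α) :
    HasDerivAt (fun t => eR (f t) (g t)) (eRd (f α) (g α)) α := by
  have h := ((((hasDeriv_pq hf hg).const_add (1 / 2)).const_mul 2).mul hf).const_sub 1
  unfold eR eRd
  exact h.congr_deriv (by ring)

theorem hasDeriv_eI {f g : ℝ → ℝ} {α : ℝ} (hf : HasDerivAt f (-3 * g α) α)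
    (hg : HasDerivAt g (3 * f α) α) :
    HasDerivAt (fun t => eI (f t) (g t)) (eId (f α) (g α)) α := by
  have h := (((hasDeriv_pq hf hg).const_add (1 / 2)).const_mul 2).mul hg
  unfold eI eId
  exact h.congr_deriv (by ring)

theorem hasDeriv_U {f g : ℝ → ℝ} {α : ℝ} (hf : HasDerivAt f (-3 * g α) α)
    (hg : HasDerivAt g (3 * f α) α) (hR : eR (f α) (g α) ≠ 0) :
    HasDerivAt (fun t => t + Real.arctan (eI (f t) (g t) / eR (f t) (g t)))
      (1 + (eR (f α) (g α) * eId (f α) (g α) - eI (f α) (g α) * eRd (f α) (g α)) /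
        eN (f α) (g α)) α := by
  have h1 := (hasDeriv_eI hf hg).div (hasDeriv_eR hf hg) hR
  have h2 := (hasDerivAt_id α).add h1.arctan
  refine h2.congr_deriv ?_
  have hN : eN (f α) (g α) ≠ 0 := by
    unfold eN
    have := sq_nonneg (eI (f α) (g α))
    have : 0 < eR (f α) (g α) ^ 2 := by positivity
    positivity
  have h3 : 1 + (eI (f α) (g α) / eR (f α) (g α)) ^ 2 = eN (f α) (g α) / eR (f α) (g α) ^ 2 := by
    unfold eN; field_simp
  simp only [Pi.div_apply]
  rw [h3]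
  field_simp

theorem hQU1 : StQu1 := by
  intro r sp sm hC
  obtain ⟨C, r₁, hC0, hr₁, hr1s, hr1r, hpt⟩ := point r sp sm hC
  refine ⟨C * 13, r₁, by positivity, hr₁, ?_⟩
  intro a ha0 ha
  set f : ℝ → ℝ := fun t => a * Real.cos (3 * t) with hf
  set g : ℝ → ℝ := fun t => a * Real.sin (3 * t) with hg
  have hk : ∀ t, |f t| ≤ a := fun t => by
    simp only [hf]
    rw [abs_mul, abs_of_nonneg ha0]
    exact mul_le_of_le_one_right ha0 (Real.abs_cos_le_one _)
  have hs : ∀ t, |g t| ≤ a := fun t => by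
    simp only [hg]
    rw [abs_mul, abs_of_nonneg ha0]
    exact mul_le_of_le_one_right ha0 (Real.abs_sin_le_one _)
  have hb := fun t => bds a (f t) (g t) (le_trans ha hr1s) (hk t) (hs t)
  have ha1 : a ≤ 1 / 10000 := le_trans ha hr1s
  have hR : ∀ t, eR (f t) (g t) ≠ 0 := fun t => by
    have := abs_le.mp (hb t).1
    have h : 0 < eR (f t) (g t) := by linarith
    exact h.ne'
  have hN : ∀ t, 1 / 2 ≤ eN (f t) (g t) := fun t => by
    have := abs_le.mp (hb t).2.2.2.2.1
    linarith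
  set U : ℝ → ℝ := fun t => t + Real.arctan (eI (f t) (g t) / eR (f t) (g t)) with hU
  set U' : ℝ → ℝ := fun t => 1 + (eR (f t) (g t) * eId (f t) (g t) -
    eI (f t) (g t) * eRd (f t) (g t)) / eN (f t) (g t) with hU'
  have hderiv : ∀ t, HasDerivAt U (U' t) t := fun t =>
    hasDeriv_U (hasDeriv_kk a t) (hasDeriv_ss a t) (hR t)
  have hfc : Continuous f := by rw [hf]; fun_prop
  have hgc : Continuous g := by rw [hg]; fun_prop
  have hpc : Continuous (fun t => pq (f t) (g t)) := by unfold pq; fun_prop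
  have hpdc : Continuous (fun t => pqd (f t) (g t)) := by unfold pqd; fun_prop
  have heRc : Continuous (fun t => eR (f t) (g t)) := by unfold eR; fun_prop
  have heIc : Continuous (fun t => eI (f t) (g t)) := by unfold eI; fun_prop
  have heRdc : Continuous (fun t => eRd (f t) (g t)) := by unfold eRd; fun_prop
  have heIdc : Continuous (fun t => eId (f t) (g t)) := by unfold eId; fun_prop
  have heNc : Continuous (fun t => eN (f t) (g t)) := by unfold eN; fun_prop
  have hrRc : Continuous (fun t => rR (f t) (g t)) := by unfold rR; fun_prop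
  have hN0 : ∀ t, eN (f t) (g t) ≠ 0 := fun t => by linarith [hN t] |> fun (h : 0 < eN (f t) (g t)) => h.ne'
  have hU'c : Continuous U' := by
    apply continuous_const.add
    exact Continuous.div (by fun_prop) heNc hN0
  have hsN0 : ∀ t, Real.sqrt (eN (f t) (g t)) ≠ 0 := fun t =>
    (Real.sqrt_pos.mpr (lt_of_lt_of_le (by norm_num) (hN t))).ne'
  have hgam : ∀ t, gam (f t) (g t) = rR (f t) (g t) / Real.sqrt (eN (f t) (g t)) * U' t :=
    fun t => rfl
  have hgamc : Continuous (fun t => gam (f t) (g t)) := by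
    have : (fun t => gam (f t) (g t)) =
        fun t => rR (f t) (g t) / Real.sqrt (eN (f t) (g t)) * U' t := funext hgam
    rw [this]
    exact (Continuous.div hrRc (Real.continuous_sqrt.comp heNc) hsN0).mul hU'c
  set F : ℝ → ℝ := fun u => cc sp (rot u ((a : ℂ), (0 : ℂ)), 0) with hF
  have hFc : Continuous F := by
    have h1 : ContinuousOn (cc sp) (ball (0 : (ℂ × ℂ) × (ℝ × ℝ)) r) := fun p hp =>
      (contDiffAt_cc hC p hp).continuousAt.continuousWithinAt
    apply h1.comp_continuous ((continuous_rot _).prodMk continuous_const)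
    intro u
    rw [mem_ball_zero_iff, Prod.norm_def]
    simp only [norm_zero, norm_rot, norm_sm a ha0]
    rw [max_eq_left ha0]
    linarith
  have hFper : Function.Periodic F (2 * Real.pi) := fun u => by
    simp only [hF, rot_per]
  have hfp : ∀ t, f (t + 2 * Real.pi) = f t := fun t => by
    simp only [hf]
    have : 3 * (t + 2 * Real.pi) = 3 * t + (3 : ℕ) * (2 * Real.pi) := by push_cast; ring
    rw [this, Real.cos_add_nat_mul_two_pi]
  have hgp : ∀ t, g (t + 2 * Real.pi) = g t := fun t => by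
    simp only [hg]
    have : 3 * (t + 2 * Real.pi) = 3 * t + (3 : ℕ) * (2 * Real.pi) := by push_cast; ring
    rw [this, Real.sin_add_nat_mul_two_pi]
  have hU2 : U (2 * Real.pi) = U 0 + 2 * Real.pi := by
    have h1 := hfp 0
    have h2 := hgp 0
    rw [zero_add] at h1 h2
    simp only [hU, h1, h2]
    ring
  have hsub := intervalIntegral.integral_comp_mul_deriv (a := 0) (b := 2 * Real.pi)
    (f := U) (f' := U') (g := F) (fun x _ => hderiv x) hU'c.continuousOn hFc
  rw [hU2, hFper.intervalIntegral_add_eq (U 0) 0, zero_add] at hsub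
  have hi1 : IntervalIntegrable (fun t => (F ∘ U) t * U' t) volume 0 (2 * Real.pi) :=
    ((hFc.comp (continuous_iff_continuousAt.mpr fun t => (hderiv t).continuousAt)).mul
      hU'c).intervalIntegrable _ _
  have hi2 : IntervalIntegrable (fun t => gam (f t) (g t)) volume 0 (2 * Real.pi) :=
    hgamc.intervalIntegrable _ _
  have hsub2 := intervalIntegral.integral_sub hi1 hi2
  show |(∫ u in (0 : ℝ)..(2 * Real.pi), F u) - ∫ t in (0 : ℝ)..(2 * Real.pi), gam (f t) (g t)|
    ≤ _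
  rw [← hsub, ← hsub2]
  have hbound : ∀ x ∈ Set.uIoc (0 : ℝ) (2 * Real.pi),
      ‖(F ∘ U) x * U' x - gam (f x) (g x)‖ ≤ 2 * (C * a ^ 5) := by
    intro t _
    have h1 : (F ∘ U) t * U' t - gam (f t) (g t) =
        (F (U t) - rR (f t) (g t) / Real.sqrt (eN (f t) (g t))) * U' t := by
      rw [hgam]; simp only [Function.comp]; ring
    rw [h1, Real.norm_eq_abs, abs_mul]
    have h2 := hpt a ha0 ha t (f t) (g t) rfl rfl
    have h3 : |U' t| ≤ 2 := by
      simp only [hU']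
      refine le_trans (abs_add_le _ _) ?_
      rw [abs_one, abs_div, abs_of_pos (lt_of_lt_of_le (by norm_num) (hN t))]
      have h4 := (hb t).2.2.2.2.2.1
      have h5 : |eR (f t) (g t) * eId (f t) (g t) - eI (f t) (g t) * eRd (f t) (g t)| /
          eN (f t) (g t) ≤ 1 := by
        rw [div_le_one (lt_of_lt_of_le (by norm_num) (hN t))]
        have := hN t
        linarith
      linarith
    calc _ ≤ (C * a ^ 5) * 2 := mul_le_mul h2 h3 (abs_nonneg _) (by positivity)
      _ = _ := by ring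
  have hfin := intervalIntegral.norm_integral_le_of_norm_le_const hbound
  rw [Real.norm_eq_abs] at hfin
  refine le_trans hfin ?_
  rw [sub_zero, abs_of_pos (by positivity)]
  have hpi := Real.pi_lt_d2
  have h5 : 0 ≤ C * a ^ 5 := by positivity
  nlinarith

end Pool.Agent.Helper87.LT
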