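import Pool.Agent.Helper49.LT.StC

open MeasureTheory Set Filter Metric

namespace Pool.Agent.Helper87.LT

open Helper49.LT Helper97.CB

/-- evaluation of a sparse polynomial in two variables -/
noncomputable def evL (L : List (ℝ × ℕ × ℕ)) (k s : ℝ) : ℝ :=
  (L.map (fun t => t.1 * (k ^ t.2.1 * s ^ t.2.2))).sum

theorem evL_bound (L : List (ℝ × ℕ × ℕ)) (n : ℕ) (hL : ∀ t ∈ L, n ≤ t.2.1 + t.2.2) (a k s : ℝ)
    (ha1 : a ≤ 1) (hk : |k| ≤ a) (hs : |s| ≤ a) :
    |evL L k s| ≤ (L.map (fun t => |t.1|)).sum * a ^ n := by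
  have ha : 0 ≤ a := le_trans (abs_nonneg _) hk
  induction L with
  | nil => simp [evL]
  | cons t L ih =>
    have h1 := ih (fun t' ht' => hL t' (List.mem_cons_of_mem _ ht'))
    have h2 := hL t List.mem_cons_self
    have h3 : |t.1 * (k ^ t.2.1 * s ^ t.2.2)| ≤ |t.1| * a ^ n := by
      rw [abs_mul, abs_mul, abs_pow, abs_pow]
      apply mul_le_mul_of_nonneg_left _ (abs_nonneg _)
      calc |k| ^ t.2.1 * |s| ^ t.2.2 ≤ a ^ t.2.1 * a ^ t.2.2 :=
            mul_le_mul (pow_le_pow_left₀ (abs_nonneg _) hk _)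
              (pow_le_pow_left₀ (abs_nonneg _) hs _) (by positivity) (by positivity)
        _ = a ^ (t.2.1 + t.2.2) := (pow_add _ _ _).symm
        _ ≤ a ^ n := pow_le_pow_of_le_one ha ha1 h2
    have h4 : evL (t :: L) k s = t.1 * (k ^ t.2.1 * s ^ t.2.2) + evL L k s := by
      simp [evL]
    rw [h4, List.map_cons, List.sum_cons, add_mul]
    exact le_trans (abs_add_le _ _) (add_le_add h3 h1)

theorem qq_bound : ∃ C : ℝ, 0 < C ∧ ∀ a k s : ℝ, a ≤ 1 → |k| ≤ a → |s| ≤ a →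
    |(1 - (1 / 2 + pq k s) ^ 2) * eN k s - 3 / 4| ≤ C * a ^ 5 := by
  set L : List (ℝ × ℕ × ℕ) := [
((-21 / 32), 0, 6), ((-1809 / 256), 0, 8), ((-2007 / 128), 0, 10), ((-2835 / 128), 0, 12),
((-4725 / 256), 0, 14), ((-10125 / 1024), 0, 16), ((-50625 / 16384), 0, 18), ((9), 1, 4), ((693
/ 16), 1, 6), ((12573 / 128), 1, 8), ((35397 / 256), 1, 10), ((123255 / 1024), 1, 12), ((34425
/ 512), 1, 14), ((10125 / 512), 1, 16), ((-405 / 4), 2, 4), ((-2079 / 16), 2, 6), ((9 / 8), 2,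
8), ((60345 / 128), 2, 10), ((183195 / 256), 2, 12), ((573075 / 1024), 2, 14), ((4161375 /
16384), 2, 16), ((42), 3, 2), ((-171), 3, 4), ((-2583 / 2), 3, 6), ((-221265 / 64), 3, 8),
((-285687 / 64), 3, 10), ((-1752435 / 512), 3, 12), ((-346275 / 256), 3, 14), ((1569 / 4), 4,
2), ((17001 / 8), 4, 4), ((5859), 4, 6), ((83673 / 32), 4, 8), ((-374949 / 64), 4, 10),
((-9720), 4, 12), ((-3995325 / 512), 4, 14), ((-135), 5, 0), ((-2259 / 2), 5, 2), ((-19935 /
8), 5, 4), ((14364), 5, 6), ((694251 / 16), 5, 8), ((7028289 / 128), 5, 10), ((16958565 / 512),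
5, 12), ((168), 6, 0), ((-261 / 2), 6, 2), ((-42669 / 2), 6, 4), ((-549747 / 8), 6, 6),
((-2424789 / 64), 6, 8), ((4074705 / 128), 6, 10), ((27041445 / 256), 6, 12), ((261 / 2), 7,
0), ((39159 / 4), 7, 2), ((797931 / 16), 7, 4), ((-304263 / 8), 7, 6), ((-7997373 / 32), 7, 8),
((-21270843 / 64), 7, 10), ((-1431), 8, 0), ((-36747 / 2), 8, 2), ((43740), 8, 4), ((5123277 /
16), 8, 6), ((50628645 / 128), 8, 8), ((-2064771 / 4), 8, 10), ((2925), 9, 0), ((-12015), 9,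
2), ((-1455327 / 8), 9, 4), ((-1425681 / 4), 9, 6), ((32539887 / 32), 9, 8), ((765), 10, 0),
((55971), 10, 2), ((564327 / 2), 10, 4), ((-6001857 / 8), 10, 6), ((-8514315 / 32), 10, 8),
((-8370), 11, 0), ((-251505 / 2), 11, 2), ((2566809 / 8), 11, 4), ((1583793 / 2), 11, 6),
((20493), 12, 0), ((-445473 / 4), 12, 2), ((-3150333 / 4), 12, 4), ((562545 / 2), 12, 6),
((21654), 13, 0), ((314037), 13, 2), ((-1005453 / 2), 13, 4), ((-168129 / 4), 14, 0),
((292248), 14, 2), ((-74115), 14, 4), ((-54918), 15, 0), ((84564), 15, 2), ((-23814), 16, 0),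
((8100), 16, 2), ((-4536), 17, 0), ((-324), 18, 0)] with hL
  refine ⟨(L.map (fun t => |t.1|)).sum + 1, ?_, ?_⟩
  · have : 0 ≤ (L.map (fun t => |t.1|)).sum := by
      apply List.sum_nonneg
      intro x hx
      obtain ⟨y, _, rfl⟩ := List.mem_map.mp hx
      exact abs_nonneg _
    linarith
  · intro a k s ha hk hs
    have ha0 : 0 ≤ a := le_trans (abs_nonneg _) hk
    have h := evL_bound L 5 (by
      intro t ht
      rw [hL] at ht
      simp only [List.mem_cons, List.not_mem_nil, or_false] at ht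
      rcases ht with rfl | rfl | rfl | rfl | rfl | rfl | rfl | rfl | rfl | rfl | rfl | rfl | rfl | rfl | rfl | rfl | rfl | rfl | rfl | rfl | rfl | rfl | rfl | rfl | rfl | rfl | rfl | rfl | rfl | rfl | rfl | rfl | rfl | rfl | rfl | rfl | rfl | rfl | rfl | rfl | rfl | rfl | rfl | rfl | rfl | rfl | rfl | rfl | rfl | rfl | rfl | rfl | rfl | rfl | rfl | rfl | rfl | rfl | rfl | rfl | rfl | rfl | rfl | rfl | rfl | rfl | rfl | rfl | rfl | rfl | rfl | rfl | rfl | rfl | rfl | rfl | rfl | rfl | rfl | rfl | rfl | rfl | rfl | rfl | rfl | rfl | rfl | rfl | rfl | rfl | rfl <;> norm_num) a k s ha hk hs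
    have e : (1 - (1 / 2 + pq k s) ^ 2) * eN k s - 3 / 4 = evL L k s := by
      rw [hL]
      simp only [evL, List.map_cons, List.map_nil, List.sum_cons, List.sum_nil]
      unfold eN eR eI pq
      ring
    rw [e]
    have : 0 ≤ a ^ 5 := by positivity
    linarith

end Pool.Agent.Helper87.LT
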