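import Pool.Agent.Helper87.LT.Q1

open MeasureTheory Set Filter Metric

namespace Pool.Agent.Helper87.LT

open Helper49.LT Helper97.CB

theorem pq_bd (a k s : ℝ) (ha1 : a ≤ 1) (hk : |k| ≤ a) (hs : |s| ≤ a) : |pq k s| ≤ 38 * a := by
  have h := evL_bound [(-3 / 2, 1, 0), (3 / 4, 0, 2), (-3 / 2, 1, 2), (21 / 2, 3, 0),
    (15 / 16, 0, 4), (-39 / 2, 2, 2), (3, 4, 0)] 1 (by
      intro t ht
      simp only [List.mem_cons, List.not_mem_nil, or_false] at ht
      rcases ht with rfl | rfl | rfl | rfl | rfl | rfl | rfl <;> norm_num) a k s ha1 hk hs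
  have e : pq k s = evL [(-3 / 2, 1, 0), (3 / 4, 0, 2), (-3 / 2, 1, 2), (21 / 2, 3, 0),
    (15 / 16, 0, 4), (-39 / 2, 2, 2), (3, 4, 0)] k s := by
    simp only [evL, List.map_cons, List.map_nil, List.sum_cons, List.sum_nil]
    unfold pq
    ring
  rw [e]
  have ha : 0 ≤ a := le_trans (abs_nonneg _) hk
  refine le_trans h ?_
  have : (List.map (fun t : ℝ × ℕ × ℕ => |t.1|) [(-3 / 2, 1, 0), (3 / 4, 0, 2), (-3 / 2, 1, 2),
    (21 / 2, 3, 0), (15 / 16, 0, 4), (-39 / 2, 2, 2), (3, 4, 0)]).sum ≤ 38 := by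
    simp only [List.map_cons, List.map_nil, List.sum_cons, List.sum_nil]
    norm_num [abs_of_nonneg, abs_of_neg]
  rw [pow_one]
  exact mul_le_mul_of_nonneg_right this ha

theorem pqd_bd (a k s : ℝ) (ha1 : a ≤ 1) (hk : |k| ≤ a) (hs : |s| ≤ a) :
    |pqd k s| ≤ 400 * a := by
  have h := evL_bound [(9 / 2, 0, 1), (9 / 2, 0, 3), (-189 / 2, 2, 1), (117, 1, 3), (-36, 3, 1),
    (9 / 2, 1, 1), (-9, 2, 1), (45 / 4, 1, 3), (-117, 3, 1)] 1 (by
      intro t ht
      simp only [List.mem_cons, List.not_mem_nil, or_false] at ht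
      rcases ht with rfl | rfl | rfl | rfl | rfl | rfl | rfl | rfl | rfl <;> norm_num) a k s ha1 hk hs
  have e : pqd k s = evL [(9 / 2, 0, 1), (9 / 2, 0, 3), (-189 / 2, 2, 1), (117, 1, 3), (-36, 3, 1),
    (9 / 2, 1, 1), (-9, 2, 1), (45 / 4, 1, 3), (-117, 3, 1)] k s := by
    simp only [evL, List.map_cons, List.map_nil, List.sum_cons, List.sum_nil]
    unfold pqd
    ring
  rw [e]
  have ha : 0 ≤ a := le_trans (abs_nonneg _) hk
  refine le_trans h ?_
  have : (List.map (fun t : ℝ × ℕ × ℕ => |t.1|) [(9 / 2, 0, 1), (9 / 2, 0, 3), (-189 / 2, 2, 1),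
    (117, 1, 3), (-36, 3, 1), (9 / 2, 1, 1), (-9, 2, 1), (45 / 4, 1, 3), (-117, 3, 1)]).sum
      ≤ 400 := by
    simp only [List.map_cons, List.map_nil, List.sum_cons, List.sum_nil]
    norm_num [abs_of_nonneg, abs_of_neg]
  rw [pow_one]
  exact mul_le_mul_of_nonneg_right this ha

/-- elementary bounds for small `a` -/
theorem bds (a k s : ℝ) (ha1 : a ≤ 1 / 10000) (hk : |k| ≤ a) (hs : |s| ≤ a) :
    |eR k s - 1| ≤ 2 * a ∧ |eI k s| ≤ 2 * a ∧ |eRd k s| ≤ 4 * a ∧ |eId k s| ≤ 4 * a ∧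
    |eN k s - 1| ≤ 5 * a ∧ |eR k s * eId k s - eI k s * eRd k s| ≤ 5 * a ∧ |rR k s| ≤ 2 := by
  have ha : 0 ≤ a := le_trans (abs_nonneg _) hk
  have hp := pq_bd a k s (by linarith) hk hs
  have hpd := pqd_bd a k s (by linarith) hk hs
  have hp' : |pq k s| ≤ 1 / 100 := by linarith
  have hq : |1 / 2 + pq k s| ≤ 51 / 100 := by
    calc |1 / 2 + pq k s| ≤ |(1 / 2 : ℝ)| + |pq k s| := abs_add_le _ _
      _ ≤ _ := by rw [abs_of_pos (by norm_num : (0 : ℝ) < 1 / 2)]; linarith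
  have h1 : |eR k s - 1| ≤ 2 * a := by
    have : eR k s - 1 = -(2 * ((1 / 2 + pq k s) * k)) := by unfold eR; ring
    rw [this, abs_neg, abs_mul, abs_mul, abs_of_pos (by norm_num : (0 : ℝ) < 2)]
    have := mul_le_mul hq hk (abs_nonneg _) (by norm_num)
    linarith
  have h2 : |eI k s| ≤ 2 * a := by
    have : eI k s = 2 * ((1 / 2 + pq k s) * s) := by unfold eI; ring
    rw [this, abs_mul, abs_mul, abs_of_pos (by norm_num : (0 : ℝ) < 2)]
    have := mul_le_mul hq hs (abs_nonneg _) (by norm_num)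
    linarith
  have h3 : |eRd k s| ≤ 4 * a := by
    have : eRd k s = -(2 * (pqd k s * k)) + 6 * ((1 / 2 + pq k s) * s) := by unfold eRd; ring
    rw [this]
    refine le_trans (abs_add_le _ _) ?_
    rw [abs_neg, abs_mul, abs_mul, abs_mul 6, abs_mul (1 / 2 + pq k s),
      abs_of_pos (by norm_num : (0 : ℝ) < 2), abs_of_pos (by norm_num : (0 : ℝ) < 6)]
    have e1 := mul_le_mul hq hs (abs_nonneg _) (by norm_num)
    have e2 := mul_le_mul hpd hk (abs_nonneg _) (by positivity)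
    nlinarith
  have h4 : |eId k s| ≤ 4 * a := by
    have : eId k s = 2 * (pqd k s * s) + 6 * ((1 / 2 + pq k s) * k) := by unfold eId; ring
    rw [this]
    refine le_trans (abs_add_le _ _) ?_
    rw [abs_mul, abs_mul, abs_mul 6, abs_mul (1 / 2 + pq k s),
      abs_of_pos (by norm_num : (0 : ℝ) < 2), abs_of_pos (by norm_num : (0 : ℝ) < 6)]
    have e1 := mul_le_mul hq hk (abs_nonneg _) (by norm_num)
    have e2 := mul_le_mul hpd hs (abs_nonneg _) (by positivity)
    nlinarith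
  have h1' := abs_le.mp h1
  have h2' := abs_le.mp h2
  have h3' := abs_le.mp h3
  have h4' := abs_le.mp h4
  have h5 : |eN k s - 1| ≤ 5 * a := by
    unfold eN
    rw [abs_le]
    constructor <;> nlinarith
  have h6 : |eR k s * eId k s - eI k s * eRd k s| ≤ 5 * a := by
    have : eR k s * eId k s - eI k s * eRd k s =
      eId k s + ((eR k s - 1) * eId k s + -(eI k s * eRd k s)) := by ring
    rw [this]
    refine le_trans (abs_add_le _ _) ?_
    have e0 := abs_add_le ((eR k s - 1) * eId k s) (-(eI k s * eRd k s))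
    rw [abs_neg, abs_mul, abs_mul] at e0
    have e1 := mul_le_mul h1 h4 (abs_nonneg _) (by positivity)
    have e2 := mul_le_mul h2 h3 (abs_nonneg _) (by positivity)
    nlinarith
  refine ⟨h1, h2, h3, h4, h5, h6, ?_⟩
  have hq2 := abs_le.mp hq
  have hQ : |2 * (1 / 2 + pq k s) ^ 2 - 1| ≤ 1 := by
    rw [abs_le]
    constructor <;> nlinarith
  have hR : |eR k s| ≤ 2 := by rw [abs_le]; constructor <;> linarith
  have hI : |eI k s| ≤ 1 / 100 := by linarith
  have hA : |(1 / 2 + pq k s) + (2 * (1 / 2 + pq k s) ^ 2 - 1) * k| ≤ 6 / 10 := by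
    refine le_trans (abs_add_le _ _) ?_
    rw [abs_mul]
    have := mul_le_mul hQ hk (abs_nonneg _) (by norm_num)
    linarith
  have hB : |(2 * (1 / 2 + pq k s) ^ 2 - 1) * s| ≤ 1 := by
    rw [abs_mul]
    have := mul_le_mul hQ hs (abs_nonneg _) (by norm_num)
    linarith
  have e : rR k s = ((1 / 2 + pq k s) + (2 * (1 / 2 + pq k s) ^ 2 - 1) * k) * eR k s +
      -(((2 * (1 / 2 + pq k s) ^ 2 - 1) * s) * eI k s) := by unfold rR; ring
  rw [e]
  refine le_trans (abs_add_le _ _) ?_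
  rw [abs_neg, abs_mul, abs_mul _ (eI k s)]
  have e1 := mul_le_mul hA hR (abs_nonneg _) (by norm_num)
  have e2 := mul_le_mul hB hI (abs_nonneg _) (by norm_num)
  linarith

/-- the closed form of the chord -/
theorem chord_closed {r : ℝ} {sp sm : (ℂ × ℂ) × (ℝ × ℝ) → ℝ} (hC : Chd r sp sm) (k s : ℝ)
    (ζ β δ N : ℝ) (v' : ℂ × ℂ) (hv' : v'.2 = 0) (hv1 : v'.1 = (k : ℂ) - (s : ℂ) * Complex.I)
    (hb : Real.cos β = 1 / 2 + pq k s) (hN : 0 < N)
    (hE1 : eR k s = N * Real.cos δ) (hE2 : eI k s = N * Real.sin δ)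
    (hz : (1 + ζ) * (2 * Real.sin β * N) = Real.sqrt 3)
    (hball : (rot δ v', (ζ, ζ)) ∈ ball (0 : (ℂ × ℂ) × (ℝ × ℝ)) r)
    (h1 : |β - Real.pi / 3| ≤ 1 / 20) (h2 : |δ| ≤ 1 / 20) :
    cc sp (rot δ v', (ζ, ζ)) = (1 + ζ) * (rR k s / N) := by
  have hI2 : Complex.I * Complex.I = -1 := Complex.I_mul_I
  have hcs : (Real.cos β : ℂ) * (Real.cos β : ℂ) + (Real.sin β : ℂ) * (Real.sin β : ℂ) = 1 := by
    have := Real.cos_sq_add_sin_sq β
    rw [sq, sq] at this
    exact_mod_cast this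
  have e1 : ee β = (Real.cos β : ℂ) + (Real.sin β : ℂ) * Complex.I := ee_eq β
  have e2 : ee (-β) = (Real.cos β : ℂ) - (Real.sin β : ℂ) * Complex.I := by
    rw [ee_eq, Real.cos_neg, Real.sin_neg]; push_cast; ring
  have e3 : ee (-2 * β) = ((Real.cos β : ℂ) - (Real.sin β : ℂ) * Complex.I) *
      ((Real.cos β : ℂ) - (Real.sin β : ℂ) * Complex.I) := by
    rw [← e2, ← ee_add]; congr 1; ring
  have e4 : ee (-2 * -β) = ((Real.cos β : ℂ) + (Real.sin β : ℂ) * Complex.I) *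
      ((Real.cos β : ℂ) + (Real.sin β : ℂ) * Complex.I) := by
    rw [← e1, ← ee_add]; congr 1; ring
  set c : ℂ := (Real.cos β : ℂ) with hc
  set S : ℂ := (Real.sin β : ℂ) with hS
  have hq : c = ((1 / 2 + pq k s : ℝ) : ℂ) := by rw [hc, hb]
  have hE : 1 - 2 * c * v'.1 = (N : ℂ) * ee δ := by
    have : (N : ℂ) * ee δ = (eR k s : ℂ) + (eI k s : ℂ) * Complex.I := by
      rw [ee_eq, hE1, hE2]; push_cast; ring
    rw [this, hq, hv1]
    unfold eR eI
    push_cast
    ring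
  have hz1 : zh v' β = c + S * Complex.I + v'.1 * ((c - S * Complex.I) * (c - S * Complex.I)) := by
    unfold zh; rw [e1, e3, hv']; ring
  have hz2 : zh v' (-β) = c - S * Complex.I + v'.1 * ((c + S * Complex.I) * (c + S * Complex.I)) := by
    unfold zh; rw [e2, e4, hv']; ring
  have hr1 : zh (rot δ v') (β - δ) = ee (-δ) * zh v' β := by
    have h := zh_rot v' δ (β - δ)
    rw [add_sub_cancel] at h
    rw [h, ← mul_assoc, ← ee_add, neg_add_cancel, ee_zero, one_mul]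
  have hr2 : zh (rot δ v') (-β - δ) = ee (-δ) * zh v' (-β) := by
    have h := zh_rot v' δ (-β - δ)
    rw [add_sub_cancel] at h
    rw [h, ← mul_assoc, ← ee_add, neg_add_cancel, ee_zero, one_mul]
  have hdd : ee (-δ) * ee δ = 1 := by rw [← ee_add, neg_add_cancel, ee_zero]
  have hch : ChEq (rot δ v', (ζ, ζ)) (β - δ) (-β - δ) := by
    unfold ChEq
    simp only
    rw [hr1, hr2, hz1, hz2]
    have h3 : ((Real.sqrt 3 : ℝ) : ℂ) = (1 + (ζ : ℂ)) * (2 * S * (N : ℂ)) := by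
      rw [← hz]
      simp only [Complex.ofReal_mul, Complex.ofReal_add, Complex.ofReal_one, Complex.ofReal_ofNat]
      rfl
    rw [h3]
    have h4 : ee (-δ) * (c + S * Complex.I + v'.1 * ((c - S * Complex.I) * (c - S * Complex.I))) -
      ee (-δ) * (c - S * Complex.I + v'.1 * ((c + S * Complex.I) * (c + S * Complex.I))) =
      2 * S * Complex.I * (ee (-δ) * (1 - 2 * c * v'.1)) := by ring
    have h5 : ee (-δ) * (1 - 2 * c * v'.1) = N := by
      rw [hE, mul_left_comm, hdd, mul_one]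
    push_cast
    rw [mul_assoc, ← mul_sub, h4, h5]
    ring
  have hsp := (hC.uniq _ hball (β - δ) (-β - δ) (by
    have := abs_le.mp h1; have := abs_le.mp h2
    rw [abs_le]; constructor <;> linarith) (by
    have := abs_le.mp h1; have := abs_le.mp h2
    rw [abs_le]; constructor <;> linarith) hch).1
  unfold cc
  rw [← hsp]
  simp only
  rw [hr1, hz1]
  have h6 : ee (-δ) * (c + S * Complex.I + v'.1 * ((c - S * Complex.I) * (c - S * Complex.I))) =
      ee (-δ) * (c + (2 * c * c - 1) * v'.1) + S * N * Complex.I := by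
    have h5 : ee (-δ) * (1 - 2 * c * v'.1) = N := by
      rw [hE, mul_left_comm, hdd, mul_one]
    rw [← h5]
    have hS2 : S * S = 1 - c * c := by rw [← hcs]; ring
    linear_combination (ee (-δ) * v'.1) * (-hS2) + (ee (-δ) * v'.1 * S * S) * hI2
  rw [h6]
  have h7 : (N : ℂ) * ee (-δ) = (eR k s : ℂ) - (eI k s : ℂ) * Complex.I := by
    rw [ee_eq, hE1, hE2, Real.cos_neg, Real.sin_neg]; push_cast; ring
  have h8 : (ee (-δ) * (c + (2 * c * c - 1) * v'.1)).re = rR k s / N := by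
    rw [eq_div_iff hN.ne']
    have h9 : (ee (-δ) * (c + (2 * c * c - 1) * v'.1)).re * N =
        (((N : ℂ) * ee (-δ)) * (c + (2 * c * c - 1) * v'.1)).re := by
      rw [mul_assoc (N : ℂ), Complex.re_ofReal_mul]; ring
    rw [h9, h7, hq, hv1]
    unfold rR
    simp
    ring
  have hSi : S.im = 0 := by rw [hS]; exact Complex.ofReal_im _
  rw [Complex.re_ofReal_mul, Complex.add_re, h8]
  simp [hSi]

end Pool.Agent.Helper87.LT
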